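import Mathlib
import Pool.Agent.V11211.TS5

/-!
MP_1fe8eb_co, Q1: optimal stopping for the number of components of a random growing induced
subgraph.  For trees (and in fact for all connected graphs) on `n` vertices, no stopping
algorithm with full information scores more than `n/4 + N`, with `N` an absolute constant.
-/

namespace Pool.Agent.Results.MP_1fe8eb_co.AdditiveConstant

open Finset

/-- `CC(σ,t)`: number of connected components of the subgraph of `G` induced on the first `t`
vertices `σ 0, …, σ (t-1)` of the ordering `σ`. -/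
noncomputable def CC {n : ℕ} (G : SimpleGraph (Fin n)) (σ : Equiv.Perm (Fin n)) (t : ℕ) : ℕ :=
  Nat.card (G.induce {v | ∃ i : Fin n, (i : ℕ) < t ∧ σ i = v}).ConnectedComponent

/-- A stopping algorithm: a time in `{1, …, n}` attached to each ordering, such that two
orderings which agree up to the stopping time of the first get the same stopping time. -/
structure IsStopping {n : ℕ} (A : Equiv.Perm (Fin n) → ℕ) : Prop where
  one_le : ∀ σ, 1 ≤ A σ
  le : ∀ σ, A σ ≤ n
  adapted : ∀ σ τ : Equiv.Perm (Fin n), (∀ i : Fin n, (i : ℕ) < A σ → σ i = τ i) → A τ = A σ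

/-- The score: expected number of components at the stopping time. -/
noncomputable def score {n : ℕ} (G : SimpleGraph (Fin n)) (A : Equiv.Perm (Fin n) → ℕ) : ℝ :=
  (1 / (n.factorial : ℝ)) * ∑ σ : Equiv.Perm (Fin n), (CC G σ (A σ) : ℝ)

/-- There is an absolute constant `N` such that on every connected graph with `n` vertices (in
particular on every tree) every stopping algorithm has score at most `n/4 + N`. -/
theorem result : ∃ N : ℕ, ∀ (n : ℕ) (G : SimpleGraph (Fin n)), G.Connected →
    ∀ A : Equiv.Perm (Fin n) → ℕ, IsStopping A → score G A ≤ (n : ℝ) / 4 + N := by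
  classical
  refine ⟨50200, ?_⟩
  intro n G hG A hA
  have hfac : (0 : ℝ) < (n.factorial : ℝ) := by exact_mod_cast n.factorial_pos
  suffices h : ∑ σ : Equiv.Perm (Fin n), (CC G σ (A σ) : ℝ)
      ≤ (n.factorial : ℝ) * ((n : ℝ) / 4 + (50200 : ℕ)) by
    unfold score
    rw [one_div, inv_mul_le_iff₀ hfac]
    exact h
  obtain ⟨root⟩ := hG.nonempty
  rcases Nat.lt_or_ge n 8 with hn | hn
  · -- small n: trivial bound
    have hb : ∀ σ : Equiv.Perm (Fin n), (CC G σ (A σ) : ℝ) ≤ (n : ℝ) / 4 + (50200 : ℕ) := by
      intro σ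
      have h1 : CC G σ (A σ) ≤ n := by
        unfold CC
        have h2 : Nat.card (G.induce {v | ∃ i : Fin n, (i : ℕ) < A σ ∧ σ i = v}).ConnectedComponent
            ≤ Nat.card {v | ∃ i : Fin n, (i : ℕ) < A σ ∧ σ i = v} :=
          Nat.card_le_card_of_surjective _ (Quot.mk_surjective)
        have h3 : Nat.card {v | ∃ i : Fin n, (i : ℕ) < A σ ∧ σ i = v} ≤ Nat.card (Fin n) :=
          Nat.card_le_card_of_injective _ Subtype.val_injective
        simpa using h2.trans h3
      have h4 : (CC G σ (A σ) : ℝ) ≤ n := by exact_mod_cast h1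
      have h5 : (n : ℝ) ≤ 8 := by exact_mod_cast hn.le
      have h6 : (0 : ℝ) ≤ (n : ℝ) / 4 := by positivity
      push_cast
      linarith
    calc ∑ σ : Equiv.Perm (Fin n), (CC G σ (A σ) : ℝ)
        ≤ ∑ _σ : Equiv.Perm (Fin n), ((n : ℝ) / 4 + (50200 : ℕ)) :=
          Finset.sum_le_sum (fun σ _ => hb σ)
      _ = _ := by
          rw [Finset.sum_const, nsmul_eq_mul, Finset.card_univ, Fintype.card_perm, Fintype.card_fin]
  · obtain ⟨p, hp⟩ := Pool.Agent.V11211.TS.exists_parent G hG root
    have hpne : ∀ v ∈ (univ.erase root : Finset (Fin n)), p v ≠ v := by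
      intro v hv h
      have := (hp v (Finset.ne_of_mem_erase hv)).1
      rw [h] at this
      exact G.loopless.irrefl _ this
    have hsup := Pool.Agent.V11211.TS.superharm (univ.erase root) p hpne (n/8 + 1) (by omega)
      (by omega)
    have hos := Pool.Agent.V11211.TS.optional_stopping
      (Pool.Agent.V11211.TS.gg (univ.erase root) p (n/8 + 1)) hsup A hA.le hA.adapted
    have hcc : ∀ σ : Equiv.Perm (Fin n), (CC G σ (A σ) : ℝ)
        ≤ Pool.Agent.V11211.TS.gg (univ.erase root) p (n/8 + 1)
            (Pool.Agent.V11211.TS.inact σ (A σ)) := by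
      intro σ
      have h1 := Pool.Agent.V11211.TS.comp_bound G root p hp
        {v | ∃ i : Fin n, (i : ℕ) < A σ ∧ σ i = v} (Pool.Agent.V11211.TS.inact σ (A σ)) (by
          intro v
          simp only [Set.mem_setOf_eq, Pool.Agent.V11211.TS.inact, mem_filter, mem_univ, true_and,
            not_le]
          constructor
          · rintro ⟨i, hi, rfl⟩; simpa using hi
          · intro h; exact ⟨σ.symm v, h, by simp⟩)
      have h2 := Pool.Agent.V11211.TS.count_bound root p (Pool.Agent.V11211.TS.inact σ (A σ))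
      have h3 := Pool.Agent.V11211.TS.value_le root p hpne hn (Pool.Agent.V11211.TS.inact σ (A σ))
      have h4 : (CC G σ (A σ) : ℝ) ≤ ((univ.filter (fun v => v ∉ Pool.Agent.V11211.TS.inact σ (A σ)
          ∧ (v = root ∨ p v ∈ Pool.Agent.V11211.TS.inact σ (A σ)))).card : ℝ) := by
        exact_mod_cast h1
      linarith
    have hst := Pool.Agent.V11211.TS.start_bound G root p hp hn
    calc ∑ σ : Equiv.Perm (Fin n), (CC G σ (A σ) : ℝ)
        ≤ ∑ σ : Equiv.Perm (Fin n), Pool.Agent.V11211.TS.gg (univ.erase root) p (n/8 + 1)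
            (Pool.Agent.V11211.TS.inact σ (A σ)) := Finset.sum_le_sum (fun σ _ => hcc σ)
      _ ≤ (n.factorial : ℝ) * Pool.Agent.V11211.TS.gg (univ.erase root) p (n/8 + 1) univ := hos
      _ ≤ (n.factorial : ℝ) * ((n : ℝ) / 4 + (50200 : ℕ)) := by
          apply mul_le_mul_of_nonneg_left _ hfac.le
          push_cast
          exact hst

end Pool.Agent.Results.MP_1fe8eb_co.AdditiveConstant
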